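import Pool.Agent.H419.Avg

/-!
# Turán densities of all complete `r`-graphs when few sets of `r + 1` vertices are mixed

Call a set of `r + 1` vertices of an `r`-graph mixed if it spans at least one and at most `r - 1`
edges. For `r = 2` these are the triples with exactly one edge, and the graphs without mixed sets
are the complete multipartite graphs. For all `m > r ≥ 2` a `K_m^r`-free `r`-graph on `n` vertices
in which the proportion of mixed sets tends to `0` has density at most
`1 - 1 / ⌊(m-1)/(r-1)⌋^(r-1) + o(1)`, and this is attained.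

Outline. If `S` contains no mixed set, two non-edges in `S` with `r - 1` common vertices force
every `r`-set in their union to be a non-edge, so every `(r-1)`-set `R` has a block: all `r`-subsets
of `R ∪ {v : R ∪ {v} is a non-edge}` are non-edges, and distinct blocks have less than `r` common
vertices. A maximal clique (at most `m - 1` vertices) shows that boundedly many blocks and
boundedly many further vertices cover `S`; if there were more than `⌊(m-1)/(r-1)⌋` large blocks,
`r - 1` vertices of each would form a clique on `m` vertices. The inequality of power means counts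
the non-edges in the large blocks, and averaging over the `N`-sets `S` gives the statement.
-/

set_option autoImplicit false

namespace Pool.Agent.Results.MP_a4d830_co.BlockSystems

open Pool.Agent.H419.Blocks

/-- Every `m` vertices contain `r` vertices that do not form an edge of `H`, i.e. the `r`-graph
`H` contains no complete `r`-graph on `m` vertices. -/
def KFree (r m : ℕ) {n : ℕ} (H : Finset (Finset (Fin n))) : Prop :=
  ∀ S : Finset (Fin n), S.card = m → ∃ T ⊆ S, T.card = r ∧ T ∉ H

/-- The sets of `r + 1` vertices that span at least `1` and at most `r - 1` edges of `H`. -/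
def mixed (r : ℕ) {n : ℕ} (H : Finset (Finset (Fin n))) : Finset (Finset (Fin n)) :=
  ((Finset.univ : Finset (Fin n)).powersetCard (r + 1)).filter
    (fun P => 1 ≤ (H.filter (· ⊆ P)).card ∧ (H.filter (· ⊆ P)).card ≤ r - 1)

theorem closed_of {s n : ℕ} (H : Finset (Finset (Fin n))) (hH : ∀ T ∈ H, T.card = s + 1)
    (S : Finset (Fin n)) (hS : (mixed (s + 1) H).filter (· ⊆ S) = ∅) : Closed s H S := by
  intro P hP hPc A hA B hB hAc hBc hAB hAH hBH C hC hCc hCH
  have hPX : P ∉ mixed (s + 1) H := by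
    intro h
    have : P ∈ (mixed (s + 1) H).filter (· ⊆ S) := Finset.mem_filter.mpr ⟨h, hP⟩
    rw [hS] at this
    exact absurd this (Finset.notMem_empty _)
  apply hPX
  unfold mixed
  rw [Finset.mem_filter, Finset.mem_powersetCard]
  refine ⟨⟨Finset.subset_univ _, by omega⟩, ?_, ?_⟩
  · exact Finset.card_pos.mpr ⟨C, Finset.mem_filter.mpr ⟨hCH, hC⟩⟩
  · have hsub : H.filter (· ⊆ P) ⊆ ((P.powersetCard (s + 1)).erase A).erase B := by
      intro T hT
      obtain ⟨hTH, hTP⟩ := Finset.mem_filter.mp hT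
      rw [Finset.mem_erase, Finset.mem_erase, Finset.mem_powersetCard]
      exact ⟨fun h => hBH (h ▸ hTH), fun h => hAH (h ▸ hTH), hTP, hH T hTH⟩
    have h1 := Finset.card_le_card hsub
    have hAm : A ∈ P.powersetCard (s + 1) := Finset.mem_powersetCard.mpr ⟨hA, hAc⟩
    have hBm : B ∈ (P.powersetCard (s + 1)).erase A :=
      Finset.mem_erase.mpr ⟨hAB.symm, Finset.mem_powersetCard.mpr ⟨hB, hBc⟩⟩
    rw [Finset.card_erase_of_mem hBm, Finset.card_erase_of_mem hAm, Finset.card_powersetCard,
      hPc, Nat.choose_succ_self_right] at h1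
    omega

theorem upper (s m N n : ℕ) (hs : 1 ≤ s) (hm : s < m) (hN : s + 2 ≤ N) (hNn : N ≤ n)
    (H : Finset (Finset (Fin n))) (hH : ∀ T ∈ H, T.card = s + 1) (hK : KFree (s + 1) m H) :
    (H.card : ℝ) / (n.choose (s + 1) : ℝ) ≤
      1 - 1 / (((m - 1) / s : ℕ) : ℝ) ^ s + 2 * 4 ^ m * ((s + 1 : ℕ) : ℝ) ^ 2 / (N : ℝ) +
        (N.choose (s + 2) : ℝ) * (((mixed (s + 1) H).card : ℝ) / (n.choose (s + 2) : ℝ)) := by
  classical
  set X := mixed (s + 1) H with hX
  set q : ℝ := 1 / (((m - 1) / s : ℕ) : ℝ) ^ s with hq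
  have hXc : ∀ P ∈ X, P.card = s + 2 := by
    intro P hP
    rw [hX, mixed, Finset.mem_filter, Finset.mem_powersetCard] at hP
    exact hP.1.2
  have hNr : (0 : ℝ) < (N : ℝ) := by
    have : 0 < N := by omega
    exact_mod_cast this
  have hq1 : q ≤ 1 := by
    have h1 : 1 ≤ (m - 1) / s := by
      rw [Nat.le_div_iff_mul_le (by omega)]; omega
    have h2 : (1 : ℝ) ≤ (((m - 1) / s : ℕ) : ℝ) := by exact_mod_cast h1
    rw [hq, div_le_one (by positivity)]
    exact one_le_pow₀ h2
  set c : ℝ := 2 * 4 ^ m * ((s + 1 : ℕ) : ℝ) ^ 2 / (N : ℝ) with hc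
  have hc0 : 0 ≤ c := by positivity
  have hcw : (s + 1) * ((W0 s m : ℝ) + m) / N ≤ c := by
    rw [hc]
    refine div_le_div_of_nonneg_right ?_ hNr.le
    have := W0_bound s m
    exact_mod_cast this
  have hCn : (0 : ℝ) ≤ (N.choose (s + 1) : ℝ) := by positivity
  have hall : ∀ S ∈ (Finset.univ : Finset (Fin n)).powersetCard N,
      ((H.filter (· ⊆ S)).card : ℝ) ≤ (1 - q + c) * (N.choose (s + 1) : ℝ) +
        (N.choose (s + 1) : ℝ) * ((X.filter (· ⊆ S)).card : ℝ) := by
    intro S hS
    have hSc := (Finset.mem_powersetCard.mp hS).2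
    have hE : H.filter (· ⊆ S) = (S.powersetCard (s + 1)).filter (· ∈ H) := by
      ext T
      rw [Finset.mem_filter, Finset.mem_filter, Finset.mem_powersetCard]
      constructor
      · rintro ⟨h1, h2⟩
        exact ⟨⟨h2, hH T h1⟩, h1⟩
      · rintro ⟨⟨h1, _⟩, h2⟩
        exact ⟨h2, h1⟩
    have htot := Finset.card_filter_add_card_filter_not (s := S.powersetCard (s + 1))
      (fun T => T ∈ H)
    rw [Finset.card_powersetCard, hSc] at htot
    rw [hE]
    by_cases hemp : X.filter (· ⊆ S) = ∅
    · have hC := closed_of H hH S (by rw [hX] at hemp; exact hemp)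
      have h1 := local_missing hs hm hC (fun Y _ hYc => hK Y hYc)
      rw [hSc] at h1
      have h2 : (((S.powersetCard (s + 1)).filter (· ∈ H)).card : ℝ) +
          ((S.powersetCard (s + 1)).filter (· ∉ H)).card = (N.choose (s + 1) : ℝ) := by
        exact_mod_cast htot
      rw [hemp]
      have h3 : (q - c) * (N.choose (s + 1) : ℝ) ≤
          ((S.powersetCard (s + 1)).filter (· ∉ H)).card := by
        refine le_trans (mul_le_mul_of_nonneg_right ?_ hCn) h1
        linarith
      simp only [Finset.card_empty, Nat.cast_zero, mul_zero, add_zero]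
      nlinarith
    · have h1 : 1 ≤ (X.filter (· ⊆ S)).card :=
        Finset.card_pos.mpr (Finset.nonempty_iff_ne_empty.mpr hemp)
      have h2 : (1 : ℝ) ≤ ((X.filter (· ⊆ S)).card : ℝ) := by exact_mod_cast h1
      have h3 : (((S.powersetCard (s + 1)).filter (· ∈ H)).card : ℝ) ≤
          (N.choose (s + 1) : ℝ) := by
        have : ((S.powersetCard (s + 1)).filter (· ∈ H)).card ≤ N.choose (s + 1) := by omega
        exact_mod_cast this
      have h4 : 0 ≤ (1 - q + c) * (N.choose (s + 1) : ℝ) := mul_nonneg (by linarith) hCn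
      nlinarith
  have hsum := Finset.sum_le_sum hall
  rw [Finset.sum_add_distrib, Finset.sum_const, ← Finset.mul_sum, ← Nat.cast_sum, ← Nat.cast_sum,
    sum_sub N (s + 1) (by omega) H hH, sum_sub N (s + 2) hN X hXc, Finset.card_powersetCard,
    Finset.card_univ, Fintype.card_fin, nsmul_eq_mul, Nat.cast_mul, Nat.cast_mul] at hsum
  have c1 : n.choose N * N.choose (s + 1) =
      n.choose (s + 1) * (n - (s + 1)).choose (N - (s + 1)) := Nat.choose_mul (by omega)
  have c2 : n.choose N * N.choose (s + 2) =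
      n.choose (s + 2) * (n - (s + 2)).choose (N - (s + 2)) := Nat.choose_mul (by omega)
  have p2 : (0 : ℝ) < (n.choose (s + 1) : ℝ) := by exact_mod_cast Nat.choose_pos (by omega)
  have p3 : (0 : ℝ) < ((n - (s + 1)).choose (N - (s + 1)) : ℝ) := by
    exact_mod_cast Nat.choose_pos (by omega)
  have p4 : (0 : ℝ) < (n.choose (s + 2) : ℝ) := by exact_mod_cast Nat.choose_pos (by omega)
  have c1' : (n.choose N : ℝ) * (N.choose (s + 1) : ℝ) =
      (n.choose (s + 1) : ℝ) * ((n - (s + 1)).choose (N - (s + 1)) : ℝ) := by exact_mod_cast c1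
  have c2' : (n.choose N : ℝ) * (N.choose (s + 2) : ℝ) =
      (n.choose (s + 2) : ℝ) * ((n - (s + 2)).choose (N - (s + 2)) : ℝ) := by exact_mod_cast c2
  rw [div_le_iff₀ p2]
  have key : (H.card : ℝ) * ((n - (s + 1)).choose (N - (s + 1)) : ℝ) ≤
      ((1 - q + c + (N.choose (s + 2) : ℝ) * ((X.card : ℝ) / (n.choose (s + 2) : ℝ))) *
        (n.choose (s + 1) : ℝ)) * ((n - (s + 1)).choose (N - (s + 1)) : ℝ) := by
    refine hsum.trans (le_of_eq ?_)
    have e1 : (X.card : ℝ) * ((n - (s + 2)).choose (N - (s + 2)) : ℝ) =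
        (X.card : ℝ) / (n.choose (s + 2) : ℝ) * ((n.choose N : ℝ) * (N.choose (s + 2) : ℝ)) := by
      rw [c2']
      field_simp
    rw [e1]
    calc (n.choose N : ℝ) * ((1 - q + c) * (N.choose (s + 1) : ℝ)) +
          (N.choose (s + 1) : ℝ) * ((X.card : ℝ) / (n.choose (s + 2) : ℝ) *
            ((n.choose N : ℝ) * (N.choose (s + 2) : ℝ)))
        = (1 - q + c + (N.choose (s + 2) : ℝ) * ((X.card : ℝ) / (n.choose (s + 2) : ℝ))) *
          ((n.choose N : ℝ) * (N.choose (s + 1) : ℝ)) := by ring
      _ = _ := by rw [c1']; ring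
  exact le_of_mul_le_mul_right key p3

theorem pow_mul_descFactorial_le (k M : ℕ) (hk : 1 ≤ k) : ∀ r : ℕ,
    k ^ r * M.descFactorial r ≤ (k * M).descFactorial r := by
  intro r
  induction r with
  | zero => simp
  | succ r ih =>
    rw [Nat.descFactorial_succ, Nat.descFactorial_succ]
    have h1 : k * (M - r) ≤ k * M - r := by
      rw [Nat.mul_sub]
      have : r ≤ k * r := Nat.le_mul_of_pos_left r (by omega)
      omega
    calc k ^ (r + 1) * ((M - r) * M.descFactorial r)
        = (k * (M - r)) * (k ^ r * M.descFactorial r) := by ring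
      _ ≤ (k * M - r) * (k * M).descFactorial r := Nat.mul_le_mul h1 ih

theorem pow_mul_choose_le (k M r : ℕ) (hk : 1 ≤ k) : k ^ r * M.choose r ≤ (k * M).choose r := by
  have h := pow_mul_descFactorial_le k M hk r
  rw [Nat.descFactorial_eq_factorial_mul_choose, Nat.descFactorial_eq_factorial_mul_choose] at h
  have h2 : r.factorial * (k ^ r * M.choose r) ≤ r.factorial * (k * M).choose r := by
    calc r.factorial * (k ^ r * M.choose r) = k ^ r * (r.factorial * M.choose r) := by ring
      _ ≤ _ := h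
  exact Nat.le_of_mul_le_mul_left h2 (Nat.factorial_pos r)

/-- the class of a vertex -/
def col (k M : ℕ) (v : Fin (k * M)) : Fin k := (finProdFinEquiv.symm v).1

theorem card_col (k M : ℕ) (i : Fin k) :
    ((Finset.univ : Finset (Fin (k * M))).filter (fun v => col k M v = i)).card = M := by
  have h : (Finset.univ : Finset (Fin (k * M))).filter (fun v => col k M v = i) =
      (Finset.univ : Finset (Fin M)).map
        ⟨fun j => finProdFinEquiv (i, j), fun a b hab => by
          have := finProdFinEquiv.injective hab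
          exact (Prod.mk.inj this).2⟩ := by
    ext v
    rw [Finset.mem_filter, Finset.mem_map]
    constructor
    · rintro ⟨_, h⟩
      refine ⟨(finProdFinEquiv.symm v).2, Finset.mem_univ _, ?_⟩
      rw [← h]
      show finProdFinEquiv ((finProdFinEquiv.symm v).1, (finProdFinEquiv.symm v).2) = v
      exact finProdFinEquiv.apply_symm_apply v
    · rintro ⟨j, _, rfl⟩
      refine ⟨Finset.mem_univ _, ?_⟩
      show (finProdFinEquiv.symm (finProdFinEquiv (i, j))).1 = i
      rw [Equiv.symm_apply_apply]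
  rw [h, Finset.card_map, Finset.card_univ, Fintype.card_fin]

open Classical in
theorem lower (s m : ℕ) (hs : 1 ≤ s) (hm : s < m) (M : ℕ) :
    ∃ H : Finset (Finset (Fin ((m - 1) / s * M))), (∀ T ∈ H, T.card = s + 1) ∧
      KFree (s + 1) m H ∧ mixed (s + 1) H = ∅ ∧
      (1 - 1 / (((m - 1) / s : ℕ) : ℝ) ^ s) * (((m - 1) / s * M).choose (s + 1) : ℝ) ≤
        (H.card : ℝ) := by
  set k := (m - 1) / s with hk
  have hk1 : 1 ≤ k := by
    rw [hk, Nat.le_div_iff_mul_le (by omega)]; omega
  have hkm : k * s ≤ m - 1 := Nat.div_mul_le_self _ _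
  set U := (Finset.univ : Finset (Fin (k * M))).powersetCard (s + 1) with hU
  refine ⟨U.filter (fun A => ¬ ∃ i : Fin k, ∀ v ∈ A, col k M v = i), ?_, ?_, ?_, ?_⟩
  · intro T hT
    rw [Finset.mem_filter, hU, Finset.mem_powersetCard] at hT
    exact hT.1.2
  · intro S hS
    have h1 : (Finset.univ : Finset (Fin k)).card * s < S.card := by
      rw [Finset.card_univ, Fintype.card_fin, hS]; omega
    obtain ⟨i, _, hi⟩ := Finset.exists_lt_card_fiber_of_mul_lt_card_of_maps_to
      (f := col k M) (fun a _ => Finset.mem_univ _) h1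
    obtain ⟨T, hT, hTc⟩ := Finset.exists_subset_card_eq (Nat.succ_le_of_lt hi)
    refine ⟨T, hT.trans (Finset.filter_subset _ _), hTc, ?_⟩
    intro h
    exact (Finset.mem_filter.mp h).2 ⟨i, fun v hv => (Finset.mem_filter.mp (hT hv)).2⟩
  · rw [Finset.eq_empty_iff_forall_notMem]
    intro P hP
    unfold mixed at hP
    rw [Finset.mem_filter, Finset.mem_powersetCard] at hP
    obtain ⟨⟨_, hPc⟩, h1, h2⟩ := hP
    obtain ⟨A0, hA0⟩ := Finset.card_pos.mp h1
    obtain ⟨hA0H, hA0P⟩ := Finset.mem_filter.mp hA0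
    set Hf := U.filter (fun A => ¬ ∃ i : Fin k, ∀ v ∈ A, col k M v = i) with hHf
    have hE : Hf.filter (· ⊆ P) = (P.powersetCard (s + 1)).filter (· ∈ Hf) := by
      ext T
      constructor
      · intro h
        obtain ⟨h3, h4⟩ := Finset.mem_filter.mp h
        have h5 := h3
        rw [hHf, Finset.mem_filter, hU, Finset.mem_powersetCard] at h5
        exact Finset.mem_filter.mpr ⟨Finset.mem_powersetCard.mpr ⟨h4, h5.1.2⟩, h3⟩
      · intro h
        obtain ⟨h3, h4⟩ := Finset.mem_filter.mp h
        exact Finset.mem_filter.mpr ⟨h4, (Finset.mem_powersetCard.mp h3).1⟩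
    have htot := Finset.card_filter_add_card_filter_not (s := P.powersetCard (s + 1))
      (fun T => T ∈ Hf)
    rw [Finset.card_powersetCard, hPc, Nat.choose_succ_self_right] at htot
    rw [hE] at h2
    have h5 : 1 < ((P.powersetCard (s + 1)).filter (fun T => ¬ T ∈ Hf)).card := by omega
    obtain ⟨A, hA, B, hB, hAB⟩ := Finset.one_lt_card.mp h5
    rw [Finset.mem_filter, Finset.mem_powersetCard] at hA hB
    obtain ⟨⟨hAP, hAc⟩, hAH⟩ := hA
    obtain ⟨⟨hBP, hBc⟩, hBH⟩ := hB
    have mono : ∀ T : Finset (Fin (k * M)), T.card = s + 1 → T ∉ Hf →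
        ∃ i : Fin k, ∀ v ∈ T, col k M v = i := by
      intro T hTc hTH
      by_contra hno
      exact hTH (Finset.mem_filter.mpr ⟨Finset.mem_powersetCard.mpr ⟨Finset.subset_univ _, hTc⟩,
        hno⟩)
    obtain ⟨i, hi⟩ := mono A hAc hAH
    obtain ⟨j, hj⟩ := mono B hBc hBH
    have hun := Finset.card_union_add_card_inter A B
    have hle : (A ∪ B).card ≤ s + 1 + 1 := by
      rw [← hPc]; exact Finset.card_le_card (Finset.union_subset hAP hBP)
    have hpos : 0 < (A ∩ B).card := by omega
    obtain ⟨x, hx⟩ := Finset.card_pos.mp hpos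
    obtain ⟨hxA, hxB⟩ := Finset.mem_inter.mp hx
    have hij : i = j := by rw [← hi x hxA, hj x hxB]
    have hlt : (A ∩ B).card < s + 1 := by
      rcases Nat.lt_or_ge (A ∩ B).card (s + 1) with h | h
      · exact h
      · exfalso
        have e1 : A ∩ B = A := Finset.eq_of_subset_of_card_le Finset.inter_subset_left (by omega)
        have e2 : A ∩ B = B := Finset.eq_of_subset_of_card_le Finset.inter_subset_right (by omega)
        exact hAB (e1.symm.trans e2)
    have hPU : A ∪ B = P :=
      Finset.eq_of_subset_of_card_le (Finset.union_subset hAP hBP) (by omega)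
    refine (Finset.mem_filter.mp hA0H).2 ⟨i, fun v hv => ?_⟩
    have hvP : v ∈ A ∪ B := by rw [hPU]; exact hA0P hv
    rcases Finset.mem_union.mp hvP with h | h
    · exact hi v h
    · rw [hij]; exact hj v h
  · have htot := Finset.card_filter_add_card_filter_not (s := U)
      (fun A => ¬ ∃ i : Fin k, ∀ v ∈ A, col k M v = i)
    have hUc : U.card = (k * M).choose (s + 1) := by
      rw [hU, Finset.card_powersetCard, Finset.card_univ, Fintype.card_fin]
    have hmono : (U.filter (fun A => ¬ ¬ ∃ i : Fin k, ∀ v ∈ A, col k M v = i)).card ≤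
        k * M.choose (s + 1) := by
      have hsub : U.filter (fun A => ¬ ¬ ∃ i : Fin k, ∀ v ∈ A, col k M v = i) ⊆
          (Finset.univ : Finset (Fin k)).biUnion (fun i =>
            ((Finset.univ : Finset (Fin (k * M))).filter
              (fun v => col k M v = i)).powersetCard (s + 1)) := by
        intro A hA
        rw [Finset.mem_filter, hU, Finset.mem_powersetCard, not_not] at hA
        obtain ⟨⟨_, hAc⟩, i, hi⟩ := hA
        refine Finset.mem_biUnion.mpr ⟨i, Finset.mem_univ _, Finset.mem_powersetCard.mpr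
          ⟨fun v hv => Finset.mem_filter.mpr ⟨Finset.mem_univ _, hi v hv⟩, hAc⟩⟩
      refine le_trans (Finset.card_le_card hsub) ?_
      refine le_trans (Finset.card_biUnion_le_card_mul _ _ (M.choose (s + 1)) ?_) ?_
      · intro i _
        rw [Finset.card_powersetCard, card_col]
      · rw [Finset.card_univ, Fintype.card_fin]
    have hpow := pow_mul_choose_le k M (s + 1) hk1
    have hkr : (0 : ℝ) < (k : ℝ) := by exact_mod_cast hk1
    have h1 : (k : ℝ) ^ s * ((k : ℝ) * (M.choose (s + 1) : ℝ)) ≤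
        ((k * M).choose (s + 1) : ℝ) := by
      have : (k : ℝ) ^ (s + 1) * (M.choose (s + 1) : ℝ) ≤ ((k * M).choose (s + 1) : ℝ) := by
        exact_mod_cast hpow
      calc (k : ℝ) ^ s * ((k : ℝ) * (M.choose (s + 1) : ℝ))
          = (k : ℝ) ^ (s + 1) * (M.choose (s + 1) : ℝ) := by ring
        _ ≤ _ := this
    have h2 : (k : ℝ) * (M.choose (s + 1) : ℝ) ≤
        ((k * M).choose (s + 1) : ℝ) / (k : ℝ) ^ s := by
      rw [le_div_iff₀ (by positivity)]
      linarith
    have h3 : ((U.filter (fun A => ¬ ∃ i : Fin k, ∀ v ∈ A, col k M v = i)).card : ℝ) +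
        ((U.filter (fun A => ¬ ¬ ∃ i : Fin k, ∀ v ∈ A, col k M v = i)).card : ℝ) =
        ((k * M).choose (s + 1) : ℝ) := by
      rw [← hUc]; exact_mod_cast htot
    have h4 : ((U.filter (fun A => ¬ ¬ ∃ i : Fin k, ∀ v ∈ A, col k M v = i)).card : ℝ) ≤
        (k : ℝ) * (M.choose (s + 1) : ℝ) := by exact_mod_cast hmono
    have h5 : (1 - 1 / (k : ℝ) ^ s) * ((k * M).choose (s + 1) : ℝ) =
        ((k * M).choose (s + 1) : ℝ) - ((k * M).choose (s + 1) : ℝ) / (k : ℝ) ^ s := by ring
    rw [h5]
    linarith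

/-- Let `m > r ≥ 2` and `k = ⌊(m-1)/(r-1)⌋`.
(1) If `H` is a `K_m^r`-free `r`-graph on `n` vertices and `r + 1 ≤ N ≤ n`, the density of `H` is
at most `1 - 1/k^(r-1) + 2·4^m·r²/N + C(N, r+1) p`, where `p` is the proportion of the sets of
`r + 1` vertices that span at least one and at most `r - 1` edges.
(2) For every `M` there is such an `r`-graph on `k M` vertices without sets of this kind (`p = 0`)
and with density at least `1 - 1/k^(r-1)`. -/
theorem result (r m : ℕ) (hr : 2 ≤ r) (hm : r < m) :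
    (∀ N n : ℕ, r + 1 ≤ N → N ≤ n → ∀ H : Finset (Finset (Fin n)), (∀ T ∈ H, T.card = r) →
      KFree r m H →
      (H.card : ℝ) / (n.choose r : ℝ) ≤
        1 - 1 / (((m - 1) / (r - 1) : ℕ) : ℝ) ^ (r - 1) + 2 * 4 ^ m * (r : ℝ) ^ 2 / (N : ℝ) +
          (N.choose (r + 1) : ℝ) * (((mixed r H).card : ℝ) / (n.choose (r + 1) : ℝ))) ∧
    (∀ M : ℕ, ∃ H : Finset (Finset (Fin ((m - 1) / (r - 1) * M))), (∀ T ∈ H, T.card = r) ∧
      KFree r m H ∧ mixed r H = ∅ ∧
      (1 - 1 / (((m - 1) / (r - 1) : ℕ) : ℝ) ^ (r - 1)) *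
        (((m - 1) / (r - 1) * M).choose r : ℝ) ≤ (H.card : ℝ)) := by
  obtain ⟨s, rfl⟩ : ∃ s, r = s + 1 := ⟨r - 1, by omega⟩
  simp only [Nat.add_sub_cancel]
  refine ⟨?_, ?_⟩
  · intro N n hN hNn H hH hK
    have := upper s m N n (by omega) (by omega) hN hNn H hH hK
    exact this
  · intro M
    exact lower s m (by omega) (by omega) M

end Pool.Agent.Results.MP_a4d830_co.BlockSystems
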