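import Pool.Agent.Helper408_EX.Graph2

/-!
# The Turán densities of all complete `r`-graphs in a class of hypergraphs that follow a graph

Let `G` be a graph on the vertices of an `r`-graph `H`. A set `Z` of `r` vertices fits if
(a) `Z` is not an edge of `H` in case some vertex of `Z` is adjacent in `G` to all the others,
(b) `Z` is an edge of `H` in case `G` induces on `Z` a disjoint union of at least two complete graphs
(for instance if `Z` is independent). For all the other sets `Z` there is no condition.

For all `m > r ≥ 2` the largest density of a `K_m^r`-free `r`-graph for which some graph exists such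
that almost all `r`-sets fit is determined: it is `1 - 1 / q ^ (r - 1)`, `q = ⌊(m - 1) / (r - 1)⌋`. For
`r = 2` this is Turán's theorem (asymptotically; take the complement of `H` for `G`), for `r = 3` every
type of a triple is of one of the two kinds (starting file `MP_330434_co.EncodedByGraph`), and for
`r ≥ 4` there are more and more types of `r`-sets without any condition.

Proof. By sampling we may assume that all `r`-sets fit. If `G` had many independent `(q+1)`-sets, then it
would have `q + 1` large sets without edges between them (Erdős), and in these there are, by Ramsey's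
theorem, homogeneous sets of `r - 1` vertices. Their union has at least `m` vertices, and all its
`r`-sets are of type (b); so `H` contains `K_m^r`. Hence a random sample has no independent
`(q+1)`-set and the density of the edges of `G` is at least `1 / q - o(1)`; by convexity there are at
least `(1 / q ^ (r - 1) - o(1)) C(n, r)` sets of type (a), counted with weights at most one.
-/

set_option autoImplicit false
open Finset
open scoped Classical

namespace Pool.Agent.Results.MP_a4d830_co.GraphRules

/-- The hypergraph `H` contains no complete `r`-graph on `m` vertices: every set of `m` vertices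
contains a set of `r` vertices that is not an edge. -/
def CliqueFree {n : ℕ} (m r : ℕ) (H : Finset (Finset (Fin n))) : Prop :=
  ∀ Y : Finset (Fin n), Y.card = m → ∃ Z ⊆ Y, Z.card = r ∧ Z ∉ H

/-- some element of `Z` is adjacent to all the others -/
def Dominated {n : ℕ} (G : SimpleGraph (Fin n)) (Z : Finset (Fin n)) : Prop :=
  ∃ c ∈ Z, ∀ y ∈ Z, y ≠ c → G.Adj c y

/-- `G` induces on `Z` a disjoint union of at least two complete graphs: adjacency is transitive on `Z`,
and some two elements of `Z` are not adjacent -/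
def Cluster {n : ℕ} (G : SimpleGraph (Fin n)) (Z : Finset (Fin n)) : Prop :=
  (∀ x ∈ Z, ∀ y ∈ Z, ∀ z ∈ Z, G.Adj x y → G.Adj y z → x ≠ z → G.Adj x z) ∧
    ∃ x ∈ Z, ∃ y ∈ Z, x ≠ y ∧ ¬ G.Adj x y

/-- `Z` fits: if it is dominated, then it is not an edge of `H`; if it induces a disjoint union of at
least two complete graphs, then it is an edge of `H` -/
def Fits {n : ℕ} (G : SimpleGraph (Fin n)) (H : Finset (Finset (Fin n))) (Z : Finset (Fin n)) : Prop :=
  (Dominated G Z → Z ∉ H) ∧ (Cluster G Z → Z ∈ H)

/-- the number `⌊(m-1)/(r-1)⌋` -/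
def quot (m r : ℕ) : ℕ := (m - 1) / (r - 1)

/-- the graph in which the points with equal `v / L` are adjacent -/
def grp (n L : ℕ) : SimpleGraph (Fin n) where
  Adj x y := x ≠ y ∧ x.1 / L = y.1 / L
  symm := ⟨fun _ _ h => ⟨h.1.symm, h.2.symm⟩⟩
  loopless := ⟨fun _ h => h.1 rfl⟩

/-- the `r`-sets that are not contained in one of the intervals of `L` consecutive points -/
noncomputable def std (n r L : ℕ) : Finset (Finset (Fin n)) :=
  ((univ : Finset (Fin n)).powersetCard r).filter fun Z => ¬ ∃ i : ℕ, ∀ v ∈ Z, v.1 / L = i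

/-- the `r`-sets that are contained in one of the intervals of `L` consecutive points -/
noncomputable def co (n r L : ℕ) : Finset (Finset (Fin n)) :=
  ((univ : Finset (Fin n)).powersetCard r).filter fun Z => ∃ i : ℕ, ∀ v ∈ Z, v.1 / L = i

theorem co_card {n r q L : ℕ} (hr : 1 ≤ r) (hL : 1 ≤ L) (hq : n ≤ q * L) :
    (co n r L).card ≤ q * L.choose r := by
  have h1 : co n r L ⊆ (range q).biUnion fun i =>
      ((univ : Finset (Fin n)).filter fun v => v.1 / L = i).powersetCard r := by
    intro Z hZ
    unfold co at hZ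
    rw [mem_filter, mem_powersetCard] at hZ
    obtain ⟨⟨_, hZ⟩, i, hi⟩ := hZ
    rw [mem_biUnion]
    obtain ⟨v, hv⟩ : Z.Nonempty := card_pos.1 (by omega)
    refine ⟨i, ?_, ?_⟩
    · rw [mem_range, ← hi v hv, Nat.div_lt_iff_lt_mul (by omega)]
      have := v.2
      omega
    · rw [mem_powersetCard]
      exact ⟨fun w hw => mem_filter.2 ⟨mem_univ _, hi w hw⟩, hZ⟩
  have h2 : ∀ i, ((univ : Finset (Fin n)).filter fun v => v.1 / L = i).card ≤ L := by
    intro i
    have h3 : ((univ : Finset (Fin n)).filter fun v => v.1 / L = i).card ≤ (range L).card := by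
      refine card_le_card_of_injOn (fun v => v.1 % L) ?_ ?_
      · intro v _
        exact mem_coe.2 (mem_range.2 (Nat.mod_lt _ (by omega)))
      · intro v hv w hw h
        have a1 := (mem_filter.1 (mem_coe.1 hv)).2
        have a2 := (mem_filter.1 (mem_coe.1 hw)).2
        refine Fin.ext ?_
        rw [← Nat.div_add_mod v.1 L, ← Nat.div_add_mod w.1 L, a1, a2]
        have h' : v.1 % L = w.1 % L := h
        rw [h']
    rwa [card_range] at h3
  calc (co n r L).card ≤ _ := card_le_card h1
    _ ≤ _ := card_biUnion_le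
    _ ≤ ∑ i ∈ range q, L.choose r := by
        refine sum_le_sum fun i _ => ?_
        rw [card_powersetCard]
        exact Nat.choose_le_choose r (h2 i)
    _ = _ := by rw [sum_const, card_range, smul_eq_mul]

theorem std_add_co (n r L : ℕ) : (std n r L).card + (co n r L).card = n.choose r := by
  unfold std co
  rw [Nat.add_comm, card_filter_add_card_filter_not, card_powersetCard, card_univ, Fintype.card_fin]

theorem std_free {n m r q L : ℕ} (hL : 1 ≤ L) (hq : n ≤ q * L) (hm : q * (r - 1) < m)
    (hr : 1 ≤ r) : CliqueFree m r (std n r L) := by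
  intro Y hY
  have h1 : ∀ v ∈ Y, v.1 / L ∈ range q := by
    intro v _
    rw [mem_range, Nat.div_lt_iff_lt_mul (by omega)]
    have := v.2
    omega
  obtain ⟨i, _, h2⟩ := exists_lt_card_fiber_of_mul_lt_card_of_maps_to h1
    (by rw [card_range, hY]; exact hm)
  obtain ⟨Z, hZ, hZc⟩ := exists_subset_card_eq (s := Y.filter fun v => v.1 / L = i) (n := r)
    (by omega)
  refine ⟨Z, hZ.trans (filter_subset _ _), hZc, ?_⟩
  unfold std
  rw [mem_filter, not_and]
  exact fun _ h => h ⟨i, fun v hv => (mem_filter.1 (hZ hv)).2⟩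

theorem std_fits {n r L : ℕ} (Z : Finset (Fin n)) (hZ : Z.card = r) :
    Fits (grp n L) (std n r L) Z := by
  constructor
  · rintro ⟨c, _, h⟩ hmem
    unfold std at hmem
    rw [mem_filter] at hmem
    refine hmem.2 ⟨c.1 / L, fun v hv => ?_⟩
    rcases eq_or_ne v c with rfl | hvc
    · rfl
    · exact (h v hv hvc).2.symm
  · rintro ⟨_, x, hx, y, hy, hxy, hA⟩
    unfold std
    rw [mem_filter, mem_powersetCard]
    refine ⟨⟨subset_univ _, hZ⟩, ?_⟩
    rintro ⟨i, hi⟩
    exact hA ⟨hxy, by rw [hi x hx, hi y hy]⟩

/-- **Turán densities in the class of the `r`-graphs that follow a graph.** Let `m > r ≥ 2` and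
`q = ⌊(m-1)/(r-1)⌋`. For every `ε > 0` there are `δ > 0` and `n0` such that for all `n ≥ n0` every
`K_m^r`-free `r`-graph on `n` vertices for which, for some graph on its vertices, at most `δ C(n,r)` of the
`r`-sets do not fit has at most `(1 - 1/q^(r-1) + ε) C(n,r)` edges. For every `ε > 0` and all large `n`
there is a `K_m^r`-free `r`-graph on `n` vertices with at least `(1 - 1/q^(r-1) - ε) C(n,r)` edges and a
graph on its vertices such that all `r`-sets fit. -/
theorem result (r m : ℕ) (hr : 2 ≤ r) (hm : r < m) :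
    (∀ ε : ℝ, 0 < ε → ∃ δ : ℝ, 0 < δ ∧ ∃ n0 : ℕ, ∀ n : ℕ, n0 ≤ n →
      ∀ H : Finset (Finset (Fin n)), (∀ Z ∈ H, Z.card = r) → CliqueFree m r H →
      (∃ G : SimpleGraph (Fin n),
        ((((univ : Finset (Fin n)).powersetCard r).filter fun Z => ¬ Fits G H Z).card : ℝ) ≤
          δ * (n.choose r : ℝ)) →
      (H.card : ℝ) ≤ (1 - 1 / (quot m r : ℝ) ^ (r - 1) + ε) * (n.choose r : ℝ)) ∧
    (∀ ε : ℝ, 0 < ε → ∃ n0 : ℕ, ∀ n : ℕ, n0 ≤ n →
      ∃ (H : Finset (Finset (Fin n))) (G : SimpleGraph (Fin n)),
      (∀ Z ∈ H, Z.card = r) ∧ CliqueFree m r H ∧ (∀ Z, Z.card = r → Fits G H Z) ∧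
      (1 - 1 / (quot m r : ℝ) ^ (r - 1) - ε) * (n.choose r : ℝ) ≤ (H.card : ℝ)) := by
  have hq1 : 1 ≤ quot m r := (Nat.one_le_div_iff (by omega)).2 (by omega)
  have hmd := Nat.div_add_mod (m - 1) (r - 1)
  have hmr := Nat.mod_lt (m - 1) (show 0 < r - 1 by omega)
  have hqk : quot m r * (r - 1) < m := by
    unfold quot
    rw [Nat.mul_comm]
    omega
  have hkq : m ≤ (quot m r + 1) * (r - 1) := by
    unfold quot
    rw [Nat.add_mul, Nat.mul_comm]
    omega
  constructor
  · intro ε hε
    obtain ⟨δ, hδ, n0, h⟩ := Pool.Agent.Helper408_EX.global_graph hr hq1 hkq hε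
    refine ⟨δ, hδ, n0, fun n hn H hH hfree hG => ?_⟩
    obtain ⟨G, hG⟩ := hG
    set F : Finset (Finset (Fin n)) := ((univ : Finset (Fin n)).powersetCard r) \ H with hF
    have hmemF : ∀ Z, Z ∈ F ↔ Z.card = r ∧ Z ∉ H := by
      intro Z
      rw [hF, mem_sdiff, mem_powersetCard]
      exact ⟨fun h => ⟨h.1.2, h.2⟩, fun h => ⟨⟨subset_univ _, h.1⟩, h.2⟩⟩
    have hHsub : H ⊆ (univ : Finset (Fin n)).powersetCard r := fun Z hZ =>
      mem_powersetCard.2 ⟨subset_univ _, hH Z hZ⟩
    have hc : F.card + H.card = n.choose r := by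
      rw [hF, card_sdiff_of_subset hHsub, card_powersetCard, card_univ, Fintype.card_fin]
      have h1 := card_le_card hHsub
      rw [card_powersetCard, card_univ, Fintype.card_fin] at h1
      omega
    have hres := h n hn G F (fun Z hZ => ((hmemF Z).1 hZ).1) (fun Y hY => by
      obtain ⟨Z, hZY, hZc, hZH⟩ := hfree Y hY
      exact ⟨Z, (hmemF Z).2 ⟨hZc, hZH⟩, hZY⟩) (by
      refine le_trans ?_ hG
      have hsub : (((univ : Finset (Fin n)).powersetCard r).filter fun Z =>
          ¬ Pool.Agent.Helper408_EX.Fits G F Z) ⊆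
          (((univ : Finset (Fin n)).powersetCard r).filter fun Z => ¬ Fits G H Z) := by
        intro Z hZ
        rw [mem_filter] at hZ ⊢
        refine ⟨hZ.1, fun hfit => hZ.2 ⟨fun hs => (hmemF Z).2
          ⟨(mem_powersetCard.1 hZ.1).2, hfit.1 hs⟩, fun hcl hmem => ?_⟩⟩
        exact ((hmemF Z).1 hmem).2 (hfit.2 hcl)
      exact_mod_cast card_le_card hsub)
    have hc' : (F.card : ℝ) + (H.card : ℝ) = (n.choose r : ℝ) := by exact_mod_cast hc
    linarith
  · intro ε hε
    obtain ⟨n0, h⟩ := Pool.Agent.Helper408_EX.size_bound r (quot m r) hr hq1 hε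
    refine ⟨n0 + 1, fun n hn => ?_⟩
    set q := quot m r with hq
    set L := (n + q - 1) / q with hL
    have hqL : n ≤ q * L := by
      have h1 := Nat.div_add_mod (n + q - 1) q
      have h2 := Nat.mod_lt (n + q - 1) (show 0 < q by omega)
      rw [← hL] at h1
      omega
    have hL1 : 1 ≤ L := by
      rcases Nat.eq_zero_or_pos L with h0 | h0
      · rw [h0] at hqL
        omega
      · exact h0
    refine ⟨std n r L, grp n L, ?_, std_free hL1 hqL hqk (by omega), std_fits, ?_⟩
    · intro Z hZ
      unfold std at hZ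
      rw [mem_filter, mem_powersetCard] at hZ
      exact hZ.1.2
    · have h1 := h n (by omega)
      have h2 : ((co n r L).card : ℝ) ≤ (q : ℝ) * (L.choose r : ℝ) := by
        exact_mod_cast co_card (by omega) hL1 hqL
      have h3 : ((std n r L).card : ℝ) + ((co n r L).card : ℝ) = (n.choose r : ℝ) := by
        exact_mod_cast std_add_co n r L
      linarith

end Pool.Agent.Results.MP_a4d830_co.GraphRules
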