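import Pool.Agent.Helper964_DD.RG.Exact

/-!
# `K_m^r`-free ordered hypergraphs: the exact maximum in a class for `m = q (r - 1) + 1`

Let the vertices of an `r`-graph `H` be ordered. An `(r+1)`-set `v_1 < v_2 < ... < v_{r+1}` is bad if
its first `r` points form an edge and
 (a) `v_1 v_3 ... v_{r+1}` (all points but the second) is not an edge, or
 (b) the last `r` points form an edge too, but some other `r` of the `r + 1` points do not.
The class consists of the `K_m^r`-free `r`-graphs without bad sets for some ordering of the vertices.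

Outline. Give an `(r-1)`-set `A` the label `φ(A)`: the largest size of a clique whose last `r - 1`
points are `A`. There are `m - r + 1` labels. For `v_1 < ... < v_r` the label of `v_2 ... v_r` is at
least that of `v_1 ... v_{r-1}`, by (a), and larger if `v_1 ... v_r` is an edge, by (b). Sum over all
`r`-sets of span at most `D`: the sum of the differences telescopes up to the boundary, which gives the
number of non-edges of span at most `D`; then `D` is chosen of order `(r-1) n / (m-1)`, for
`m = q (r-1) + 1` as `⌊n/q⌋`. The extremal example consists of all `r`-sets which are not contained in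
one of `q` consecutive intervals of nearly equal sizes. Averaging over subsets of bounded size allows a
small proportion of bad sets.
-/

set_option autoImplicit false
open Finset
open scoped Classical

namespace Pool.Agent.Results.MP_a4d830_co.OrderedTransitive

/-- The `r`-graph `H` contains no complete `r`-graph on `m` vertices: every set of `m` vertices
contains an `r`-set which is not an edge. -/
def KFree (r m : ℕ) {n : ℕ} (H : Finset (Finset (Fin n))) : Prop :=
  ∀ Q : Finset (Fin n), Q.card = m → ∃ Z ⊆ Q, Z.card = r ∧ Z ∉ H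

/-- The vertices are ordered by the values of the injective function `ρ`. The set `P` is bad if it has
`r + 1` points, the first being `a`, the second `b`, the last `z`, `P` without `z` is an edge, and
either `P` without `b` is not an edge, or `P` without `a` is an edge but not all `r`-subsets of `P`
are edges. -/
def Bad {n : ℕ} (ρ : Fin n → ℕ) (r : ℕ) (H : Finset (Finset (Fin n))) (P : Finset (Fin n)) : Prop :=
  P.card = r + 1 ∧ ∃ a ∈ P, ∃ b ∈ P, ∃ z ∈ P, (∀ x ∈ P, ρ a ≤ ρ x ∧ ρ x ≤ ρ z) ∧ b ≠ a ∧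
    (∀ x ∈ P, x ≠ a → ρ b ≤ ρ x) ∧ P.erase z ∈ H ∧
    (P.erase b ∉ H ∨ (P.erase a ∈ H ∧ ∃ x ∈ P, P.erase x ∉ H))

/-- The `K_m^r`-free `r`-graphs on the vertices `0, ..., n-1` which have no bad sets for some ordering
`ρ` of the vertices. -/
def OrderedClass (r m n : ℕ) : Set (Finset (Finset (Fin n))) :=
  {H | (∀ Z ∈ H, Z.card = r) ∧ KFree r m H ∧
    ∃ ρ : Fin n → ℕ, Function.Injective ρ ∧ ∀ P : Finset (Fin n), ¬ Bad ρ r H P}

/-- **`K_m^r`-free ordered hypergraphs.**
(1) A finite bound for all `m > r ≥ 2`. (2) The exact maximum for `m = q (r - 1) + 1` and every `n`.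
(3) Asymptotically, for all `m > r ≥ 2`, with a small proportion of bad sets allowed.
(4) The bound in (3) is attained in the class if `m = q (r - 1) + 1`. -/
theorem result (r m : ℕ) (hr : 2 ≤ r) (hm : r < m) :
    (∀ n D : ℕ, D ≤ n → ∀ H ∈ OrderedClass r m n,
      H.card + ((n - D) * D.choose (r - 1) + D.choose r) ≤
        n.choose r + (m - r) * (D + 1).choose r) ∧
    (∀ q : ℕ, m = q * (r - 1) + 1 → ∀ n : ℕ,
      IsGreatest (Finset.card '' OrderedClass r m n)
        (n.choose r - ∑ i ∈ range q, ((n + i) / q).choose r)) ∧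
    (∀ ε : ℝ, 0 < ε → ∃ δ : ℝ, 0 < δ ∧ ∃ n0 : ℕ, ∀ n : ℕ, n0 ≤ n → ∀ H : Finset (Finset (Fin n)),
      (∀ Z ∈ H, Z.card = r) → KFree r m H →
      (∃ ρ : Fin n → ℕ, Function.Injective ρ ∧
        (((univ : Finset (Finset (Fin n))).filter fun P => Bad ρ r H P).card : ℝ) ≤
          δ * (n.choose (r + 1) : ℝ)) →
      (H.card : ℝ) ≤ (1 - (((r : ℝ) - 1) / ((m : ℝ) - 1)) ^ (r - 1) + ε) * (n.choose r : ℝ)) ∧
    (∀ q : ℕ, m = q * (r - 1) + 1 → ∀ ε : ℝ, 0 < ε → ∃ n0 : ℕ, ∀ n : ℕ, n0 ≤ n →
      ∃ H ∈ OrderedClass r m n,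
        (1 - (((r : ℝ) - 1) / ((m : ℝ) - 1)) ^ (r - 1) - ε) * (n.choose r : ℝ) ≤ (H.card : ℝ)) := by
  refine ⟨?_, ?_, ?_, ?_⟩
  · rintro n D hD H ⟨hH, hK, ρ, hρ, hB⟩
    exact Pool.Agent.Helper964_DD.RG.bound hr hm hρ hH hK hB hD
  · intro q hq n
    have hq1 : 1 ≤ q := by
      rcases Nat.eq_zero_or_pos q with h | h
      · subst h; omega
      · exact h
    constructor
    · obtain ⟨H, hH, hK, hB, hc⟩ := Pool.Agent.Helper964_DD.RG.exact_lower n hr hq1
      rw [← hq] at hK
      refine ⟨H, ⟨hH, hK, fun v => v.1, fun v w h => Fin.ext h, hB⟩, ?_⟩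
      have h1 := Pool.Agent.Helper964_DD.RG.exact_upper hr hm hq
        (ρ := fun v : Fin n => v.1) (fun v w h => Fin.ext h) hH hK hB
      omega
    · rintro _ ⟨H, ⟨hH, hK, ρ, hρ, hB⟩, rfl⟩
      have h1 := Pool.Agent.Helper964_DD.RG.exact_upper hr hm hq hρ hH hK hB
      omega
  · intro ε hε
    exact Pool.Agent.Helper964_DD.RG.upper hr hm hε
  · intro q hq ε hε
    have hq1 : 1 ≤ q := by
      rcases Nat.eq_zero_or_pos q with h | h
      · subst h; omega
      · exact h
    obtain ⟨n0, h⟩ := Pool.Agent.Helper964_DD.RG.lower hr hq1 hε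
    refine ⟨n0, fun n hn => ?_⟩
    obtain ⟨H, hH, hK, hB, hc⟩ := h n hn
    rw [← hq] at hK
    refine ⟨H, ⟨hH, hK, fun v => v.1, fun v w h => Fin.ext h, hB⟩, ?_⟩
    have e : ((r : ℝ) - 1) / ((m : ℝ) - 1) = 1 / (q : ℝ) := by
      obtain ⟨s, rfl⟩ : ∃ s, r = s + 1 := ⟨r - 1, by omega⟩
      have hs : (0 : ℝ) < (s : ℝ) := by exact_mod_cast (show 0 < s by omega)
      have hqp : (0 : ℝ) < (q : ℝ) := by exact_mod_cast hq1
      rw [hq, Nat.add_sub_cancel]
      push_cast
      rw [add_sub_cancel_right, add_sub_cancel_right]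
      field_simp
    rw [e]
    exact hc

end Pool.Agent.Results.MP_a4d830_co.OrderedTransitive
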