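import Pool.Agent.helper306_sumturan.Small
import Pool.Agent.helper306_sumturan.Lower

/-!
# MP_a4d830_co: the Turán density of `K_(r+1)^r` among hypergraphs determined by the sum

For a set `S` of natural numbers let `edges r N S` be the `r`-graph on `{1, …, N}` whose edges are
the `r`-sets with sum in `S`. Among these hypergraphs the Turán density of the complete `r`-graph
with `r + 1` vertices is `1 / p`, where `p` is the least prime factor of `r`.

Upper bound: `r + 1` elements `t_i` of `S` in a short interval with sum `r s` are the sums of the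
`r`-subsets of `{s - t_i}`. If the classes modulo `r` that contain more than `r` elements of `S` in
the interval are more than `r / p` classes, then (by adding up in `ZMod r`) `r + 1` of them have sum
`0`. So `S` has density at most `1 / p + o(1)` in all short intervals.
Lower bound: `S` is the set of all numbers congruent to `1` modulo `p`.
-/

set_option autoImplicit false

namespace Pool.Agent.Results.MP_a4d830_co.SumHypergraphs

open Pool.Agent.helper306_sumturan

theorem result (r : ℕ) (hr : 2 ≤ r) (ε : ℝ) (hε : 0 < ε) :
    ∃ N₀ : ℕ, ∀ N : ℕ, N₀ ≤ N →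
      (∀ S : Set ℕ, CliqueFree (r + 1) r N S →
        ((edges r N S).card : ℝ) ≤ (1 / r.minFac + ε) * N.choose r) ∧
      ∃ S : Set ℕ, CliqueFree (r + 1) r N S ∧
        (1 / r.minFac - ε) * N.choose r ≤ ((edges r N S).card : ℝ) := by
  obtain ⟨k, rfl⟩ : ∃ k, r = k + 1 := ⟨r - 1, by omega⟩
  obtain ⟨N₁, h1⟩ := upper_small k (by omega) ε hε
  obtain ⟨N₂, h2⟩ := le_density k (oneMod k) (1 / (k + 1).minFac) (by positivity) 1
    (count_oneMod k (by omega)) ε hε
  refine ⟨max N₁ N₂, fun N hN => ⟨fun S hS => h1 N ((le_max_left _ _).trans hN) S hS, ?_⟩⟩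
  exact ⟨oneMod k, cliqueFree_oneMod k (by omega) N, h2 N ((le_max_right _ _).trans hN)⟩

end Pool.Agent.Results.MP_a4d830_co.SumHypergraphs
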